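import Pool.Agent.Helper27.UC.Goals6
import Pool.Agent.Helper18.EW.Final
import Pool.Agent.Helper18.UW.Main
import Pool.Agent.Helper94.AM.FinC

/-!
PROJECT UC (MP_d3128a_ag), goal BAL: small multiplicities, from the theorem BalancedSystems.
-/

set_option autoImplicit false

noncomputable section

namespace Pool.Agent.Helper94.UC.BAL

open Filter
open Pool.Agent.Helper27.UC Pool.Agent.Helper94.AM

/-- Powers against the exponential function. -/
theorem ev_log (c : ℝ) (hc : 0 < c) : ∃ N1 : ℕ, ∀ n : ℕ, N1 ≤ n →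
    (n : ℝ) ^ 5 ≤ Real.exp (c * (√(n : ℝ) / 2) ^ (1 / 3 : ℝ)) := by
  have h2 : (0 : ℝ) < 2 ^ (1 / 3 : ℝ) := Real.rpow_pos_of_pos (by norm_num) _
  have hε : 0 < c / (5 * 2 ^ (1 / 3 : ℝ)) := by positivity
  have h := (isLittleO_log_rpow_atTop (r := 1 / 6) (by norm_num)).def hε
  have h' := tendsto_natCast_atTop_atTop (R := ℝ) |>.eventually h
  obtain ⟨N0, hN0⟩ := eventually_atTop.1 h'
  refine ⟨max N0 1, fun n hn => ?_⟩
  have hn1 : 1 ≤ n := (le_max_right _ _).trans hn
  have hnR : (1 : ℝ) ≤ n := by exact_mod_cast hn1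
  have hn0 : (0 : ℝ) < n := by linarith
  have h3 := hN0 n ((le_max_left _ _).trans hn)
  rw [Real.norm_eq_abs, Real.norm_eq_abs, abs_of_nonneg (Real.log_nonneg hnR),
    abs_of_nonneg (Real.rpow_nonneg hn0.le _)] at h3
  have h4 : (√(n : ℝ) / 2) ^ (1 / 3 : ℝ) = (n : ℝ) ^ (1 / 6 : ℝ) / 2 ^ (1 / 3 : ℝ) := by
    rw [Real.div_rpow (Real.sqrt_nonneg _) (by norm_num), Real.sqrt_eq_rpow,
      ← Real.rpow_mul hn0.le]
    norm_num
  have h5 : 5 * Real.log n ≤ c * ((n : ℝ) ^ (1 / 6 : ℝ) / 2 ^ (1 / 3 : ℝ)) := by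
    calc 5 * Real.log n ≤ 5 * (c / (5 * 2 ^ (1 / 3 : ℝ)) * (n : ℝ) ^ (1 / 6 : ℝ)) := by linarith
      _ = c * ((n : ℝ) ^ (1 / 6 : ℝ) / 2 ^ (1 / 3 : ℝ)) := by
        field_simp
  rw [h4]
  calc (n : ℝ) ^ 5 = Real.exp (5 * Real.log n) := by
        rw [show (5 : ℝ) * Real.log n = ((5 : ℕ) : ℝ) * Real.log n by norm_num,
          Real.exp_nat_mul, Real.exp_log hn0]
    _ ≤ _ := Real.exp_le_exp.2 h5

/-- The elements in decreasing order, then zeros. -/
def seq (L : Multiset ℕ) (i : ℕ) : ℕ := (L.sort (· ≥ ·)).getD i 0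

theorem seq_anti (L : Multiset ℕ) : Antitone (seq L) := by
  intro i j hij
  unfold seq
  have hs := L.pairwise_sort (· ≥ ·)
  rcases lt_or_ge j (L.sort (· ≥ ·)).length with hj | hj
  · rw [List.getD_eq_getElem _ _ hj, List.getD_eq_getElem _ _ (lt_of_le_of_lt hij hj)]
    rcases hij.eq_or_lt with h | h
    · subst h; exact le_rfl
    · exact List.pairwise_iff_getElem.1 hs i j _ _ h
  · rw [List.getD_eq_default _ _ hj]
    exact Nat.zero_le _

theorem seq_len (L : Multiset ℕ) : (L.sort (· ≥ ·)).length = Multiset.card L := by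
  rw [← Multiset.coe_card, Multiset.sort_eq]

theorem seq_zero (L : Multiset ℕ) (i : ℕ) (hi : Multiset.card L ≤ i) : seq L i = 0 := by
  unfold seq
  rw [List.getD_eq_default]
  rw [seq_len]
  exact hi

theorem seq_mem (L : Multiset ℕ) (i : ℕ) (hi : i < Multiset.card L) : seq L i ∈ L := by
  unfold seq
  have hi' : i < (L.sort (· ≥ ·)).length := by rw [seq_len]; exact hi
  rw [List.getD_eq_getElem _ _ hi']
  have := List.getElem_mem hi'
  rw [← Multiset.mem_coe, Multiset.sort_eq] at this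
  exact this

theorem seq_map (L : Multiset ℕ) (n : ℕ) (hn : Multiset.card L = n) :
    Multiset.map (fun i : Fin n => seq L i) Finset.univ.val = L := by
  subst hn
  rw [Fin.univ_val_map]
  have e : List.ofFn (fun i : Fin (Multiset.card L) => seq L i) = L.sort (· ≥ ·) := by
    refine List.ext_getElem ?_ fun i h1 h2 => ?_
    · rw [List.length_ofFn, seq_len]
    · rw [List.getElem_ofFn]
      show seq L i = _
      unfold seq
      rw [List.getD_eq_getElem _ _ h2]
  rw [e, Multiset.sort_eq]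

theorem t (hCNV : S_CNV) : S_BAL := by
  obtain ⟨c, C, hc, hC, hmain⟩ := mainC (uwi Pool.Agent.Helper18.UW.gCore)
    Pool.Agent.Helper18.EW.main_full
  obtain ⟨N0, hN0⟩ := ev_log c hc
  refine ⟨max N0 (max 1 ⌈4 * C ^ 2⌉₊), fun L n m d hcard hn hv hm5 => ?_⟩
  have hnN0 : N0 ≤ n := (le_max_left _ _).trans hn
  have hn1 : 1 ≤ n := ((le_max_left _ _).trans (le_max_right _ _)).trans hn
  have hnC : 4 * C ^ 2 ≤ n := (Nat.le_ceil _).trans (by
    exact_mod_cast ((le_max_right _ _).trans (le_max_right _ _)).trans hn)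
  have hsn : 2 * C ≤ √(n : ℝ) := by
    refine Real.le_sqrt_of_sq_le ?_
    have e : (2 * C) ^ (2 : ℕ) = 4 * C ^ (2 : ℕ) := by ring
    rw [e]
    exact hnC
  set f := seq L with hf
  have hanti : Antitone f := seq_anti L
  have hz : ∀ i, n ≤ i → f i = 0 := fun i hi => seq_zero L i (by rw [hcard]; exact hi)
  have hmem : ∀ i, i < n → f i ∈ L := fun i hi => seq_mem L i (by rw [hcard]; exact hi)
  have hf0 : f 0 ∈ L := hmem 0 (by omega)
  have hlow : ∀ i, i < n → f 0 ≤ 2 * f i := fun i hi =>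
    ((hv _ hf0).1).trans (hv _ (hmem i hi)).2
  -- the hypothesis (A)
  have hA : HypA c C n f d := by
    refine ⟨_, _, _, rfl, rfl, ?_, Or.inl rfl, Or.inl ?_⟩
    all_goals
      have hN : (n : ℝ) * ((f 0 : ℝ) / 2) ^ 2 ≤
          ∑ i ∈ Finset.range n, (f i : ℝ) * (f i + 1) := by
        calc (n : ℝ) * ((f 0 : ℝ) / 2) ^ 2 = ∑ _i ∈ Finset.range n, ((f 0 : ℝ) / 2) ^ 2 := by
              rw [Finset.sum_const, Finset.card_range, nsmul_eq_mul]
          _ ≤ _ := by
              refine Finset.sum_le_sum fun i hi => ?_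
              have h1 : (f 0 : ℝ) ≤ 2 * f i := by exact_mod_cast hlow i (Finset.mem_range.1 hi)
              have h2 : (0 : ℝ) ≤ f i := Nat.cast_nonneg _
              have h3 : (0 : ℝ) ≤ f 0 := Nat.cast_nonneg _
              calc ((f 0 : ℝ) / 2) ^ 2 ≤ (f i : ℝ) ^ 2 :=
                    pow_le_pow_left₀ (by linarith) (by linarith) 2
                _ ≤ (f i : ℝ) * (f i + 1) := by nlinarith
      have hR : √(n : ℝ) * ((f 0 : ℝ) / 2) ≤
          d + √(∑ i ∈ Finset.range n, (f i : ℝ) * (f i + 1)) := by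
        have h1 : √(n : ℝ) * ((f 0 : ℝ) / 2) ≤
            √(∑ i ∈ Finset.range n, (f i : ℝ) * (f i + 1)) := by
          refine Real.le_sqrt_of_sq_le ?_
          rw [mul_pow, Real.sq_sqrt (Nat.cast_nonneg _)]
          exact hN
        have h2 : (0 : ℝ) ≤ d := Nat.cast_nonneg _
        linarith
    · calc C * (f 0 : ℝ) = 2 * C * ((f 0 : ℝ) / 2) := by ring
        _ ≤ √(n : ℝ) * ((f 0 : ℝ) / 2) :=
            mul_le_mul_of_nonneg_right hsn (by positivity)
        _ ≤ _ := hR
    · rcases Nat.eq_zero_or_pos (f 0) with h0 | h0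
      · rw [h0, Nat.cast_zero]
        exact (Real.exp_pos _).le
      · have h0R : (0 : ℝ) < f 0 := by exact_mod_cast h0
        have h1 : (f 0 : ℝ) ≤ (n : ℝ) ^ 5 := by
          exact_mod_cast ((hv _ hf0).1).trans hm5
        refine (h1.trans (hN0 n hnN0)).trans (Real.exp_le_exp.2 ?_)
        refine mul_le_mul_of_nonneg_left ?_ hc.le
        refine Real.rpow_le_rpow (by positivity) ?_ (by norm_num)
        rw [le_div_iff₀ h0R]
        calc √(n : ℝ) / 2 * f 0 = √(n : ℝ) * ((f 0 : ℝ) / 2) := by ring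
          _ ≤ _ := hR
  obtain ⟨G, hG, hGP⟩ := hmain n f d hanti hz (Or.inl hA)
  have hsum : ∑ i : Fin n, (Nat.choose (f (i : ℕ) + 1) 2 : ℤ) =
      (((L.map fun v => (v + 1).choose 2).sum : ℕ) : ℤ) := by
    have e : L.map (fun v => (v + 1).choose 2) =
        Multiset.map (fun i : Fin n => (f i + 1).choose 2) Finset.univ.val := by
      conv_lhs => rw [← seq_map L n hcard]
      rw [Multiset.map_map]
      rfl
    have e2 : (Multiset.map (fun i : Fin n => (f i + 1).choose 2) Finset.univ.val).sum =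
        ∑ i : Fin n, (f i + 1).choose 2 := rfl
    rw [e, e2, Nat.cast_sum]
  have key := hCNV.1 n d ((d + 2).choose 2 - (L.map fun v => (v + 1).choose 2).sum)
    (fun i : Fin n => f i) ⟨G, hG, fun P hP hGe => by
      have h := hGP P hP hGe
      rw [hsum] at h
      have h2 : (max ((Nat.choose (d + 2) 2 : ℤ) -
          (((L.map fun v => (v + 1).choose 2).sum : ℕ) : ℤ)) 0) =
          (((d + 2).choose 2 - (L.map fun v => (v + 1).choose 2).sum : ℕ) : ℤ) := by
        omega
      rw [h2] at h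
      exact (Int.ofNat.inj h).le⟩
  rw [hf, seq_map L n hcard] at key
  exact key

end Pool.Agent.Helper94.UC.BAL
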